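import Mathlib
import Pool.Agent.R389.RatMain2

/-!
# Deligne's conjecture for all rational Artin twists when there are at most two zeros
-/

set_option autoImplicit false

namespace Pool.Agent.Results.MP_b696eb_nt.RationalTwists

open Pool.Agent.R389 Pool.Agent.H541R3.ART Filter Topology

/-- The L-functions `ℓ χ` do not depend on an embedding (rational coefficients). Suppose Deligne's
conjecture, with coefficients in a number field `E` containing the values of all linear characters,
holds at `c` for the characters induced from linear characters of subgroups of `G`, and that the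
L-function of the regular character vanishes at `c` to order at most two. Let `ρ` be a
representation of `G` over `ℚ` whose L-function has no pole at `c`, and whose period (the product of
the periods of its constituents, up to the conjugates of one element `u` of `E`) is `Ω`. Then the
value at `c` of the L-function of `ρ` is a rational multiple of `Ω`. -/
theorem result {G : Type} [Group G] [Finite G] {E : Type} [Field E] [NumberField E]
    {ζ : E} (hζ : IsPrimitiveRoot ζ (Monoid.exponent G)) {c : ℂ}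
    {ℓ : (G → ℂ) → ℂ → ℂ} {P : (E →+* ℂ) → (G → ℂ) → ℂ}
    (hL : ∀ χ ∈ Irr G, MeromorphicAt (ℓ χ) c ∧ meromorphicOrderAt (ℓ χ) c ≠ ⊤)
    (hP : ∀ τ, ∀ χ ∈ Irr G, P τ χ ≠ 0)
    (hmon : ∀ (U : Subgroup G) (ψ : U →* Eˣ),
      Deligne (fun _ => ℓ) P c (ind U (fun u => ((ψ u : Eˣ) : E))))
    {deg : (G → ℂ) → ℕ} (hdeg : ∀ χ ∈ Irr G, χ 1 = deg χ)
    (hz : meromorphicOrderAt (fun s => ∏ᶠ χ ∈ Irr G, ℓ χ s ^ deg χ) c ≤ 2)
    {V : Type} [AddCommGroup V] [Module ℚ V] [FiniteDimensional ℚ V] (ρ : Representation ℚ G V)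
    {m : (G → ℂ) → ℕ} (hm : IsDecomp (fun g => ((ρ.character g : ℚ) : ℂ)) m)
    (hpole : 0 ≤ meromorphicOrderAt (fun s => ∏ᶠ χ ∈ Irr G, ℓ χ s ^ m χ) c)
    {Ω : ℂ} {u : E} (hΩ : ∀ τ : E →+* ℂ, ∏ᶠ χ ∈ Irr G, P τ χ ^ m χ = τ u * Ω) :
    ∃ q : ℚ, Tendsto (fun s => ∏ᶠ χ ∈ Irr G, ℓ χ s ^ m χ) (𝓝[≠] c) (𝓝 (q * Ω)) :=
  main_rat' hζ hL hP hmon hdeg hz ρ hm hpole hΩ

end Pool.Agent.Results.MP_b696eb_nt.RationalTwists
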