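import Pool.Agent.R904.AB.Crit

/-!
# Deligne's conjecture: totally real abelian base fields of large degree suffice

For coprime `m, n ≥ 1` (for example `m = 2^100`, `n = 3^100`) and every `N ≥ 1` there are finite lists
`A`, `B` of totally real abelian number fields, unramified at the primes dividing `N` and of degree
divisible by `m` or by `n`, such that for all critical motives `M` over `ℚ` Deligne's conjecture for the
motives `M ⊗ h⁰(F)`, `F` in `A` or `B`, implies Deligne's conjecture for `M`, provided that the
`L`-values of the `M ⊗ h⁰(F)`, `F` in `B`, are not zero.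
-/

set_option autoImplicit false

open Pool.Agent.R904.DG Pool.Agent.R904.AB

namespace Pool.Agent.Results.MP_b696eb_nt.RealAbelianFields

/-- Let `m, n ≥ 1` be coprime and `N ≥ 1`. There are finite lists `A`, `B` of totally real number
fields, each of them contained in `ℚ(ζ_k)` for some `k` prime to `N`, of degree divisible by `m` and
dividing `m²`, or divisible by `n` and dividing `n²`, such that for every critical pure motive `M`
over `ℚ` with rational coefficients: if Deligne's conjecture holds for all `M ⊗ h⁰(F)`, `F` in `A` or
in `B`, and for each `F` in `B` the `L`-value of `M ⊗ h⁰(F)` is not zero, then Deligne's conjecture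
holds for `M`. -/
theorem result (m n N : ℕ) (hm : 0 < m) (hn : 0 < n) (hmn : Nat.Coprime m n) (hN : 0 < N) :
    ∃ A B : List RealField, (∀ F ∈ A ++ B, RealAbelian N F.1 ∧ DegreeCond m n F.1) ∧
      ∀ (T : CriticalMotives) (M : T.Mot),
        (∀ F ∈ A ++ B, T.Deligne (T.ext M F)) →
        (∀ F ∈ B, T.L (T.ext M F) ≠ 0) → T.Deligne M := by
  obtain ⟨A, B, h, hAB⟩ := real_lists' hm hn hmn hN
  refine ⟨A, B, h, fun T M hD h0 => ?_⟩
  exact T.descent M A B hAB (fun F hF => hD F (List.mem_append_left _ hF))
    (fun F hF => hD F (List.mem_append_right _ hF)) h0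

end Pool.Agent.Results.MP_b696eb_nt.RealAbelianFields
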