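import Mathlib
import Pool.Agent.R389.Rat3

/-!
# Rational coefficients: small growth of the order of vanishing in a solvable extension
-/

set_option autoImplicit false

namespace Pool.Agent.Results.MP_b696eb_nt.SmallGrowthRational

open Pool.Agent.R389 Pool.Agent.H541R3.ART Filter Topology

/-- The L-functions `ℓ χ` do not depend on an embedding (rational coefficients). Suppose Deligne's
conjecture, with coefficients in a number field `E` containing the values of all linear characters,
holds at `c` for the characters induced from linear characters of subgroups of `G`. Let `N` be a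
solvable normal subgroup such that the order of vanishing at `c` of the L-function of the regular
character of `G` exceeds the order for the character induced from the trivial character of `N` by
less than every prime divisor of the order of `N`. If the conjecture holds at `c` for the rational
representations which are trivial on `N`, then for every rational representation `ρ` of `G`, with
period `Ω` (the product of the periods of its constituents, up to the conjugates of one element `u`
of `E`), the value at `c` of the L-function of `ρ` is a rational multiple of `Ω`. -/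
theorem result {G : Type} [Group G] [Finite G] {E : Type} [Field E] [NumberField E]
    {ζ : E} (hζ : IsPrimitiveRoot ζ (Monoid.exponent G)) {c : ℂ}
    {ℓ : (G → ℂ) → ℂ → ℂ} {P : (E →+* ℂ) → (G → ℂ) → ℂ}
    (hL : ∀ χ ∈ Irr G, MeromorphicAt (ℓ χ) c ∧ meromorphicOrderAt (ℓ χ) c ≠ ⊤)
    (hP : ∀ τ, ∀ χ ∈ Irr G, P τ χ ≠ 0)
    (hmon : ∀ (U : Subgroup G) (ψ : U →* Eˣ),
      Deligne (fun _ => ℓ) P c (ind U (fun u => ((ψ u : Eˣ) : E))))
    {deg : (G → ℂ) → ℕ} (hdeg : ∀ χ ∈ Irr G, χ 1 = deg χ)
    (N : Subgroup G) [N.Normal] (hN : Group.IsSolvable N) {m₁ : (G → ℂ) → ℕ}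
    (hm₁ : IsDecomp (ind N (fun _ => (1 : ℂ))) m₁)
    (hz : ∀ p : ℕ, p.Prime → p ∣ Nat.card N →
      meromorphicOrderAt (fun s => ∏ᶠ χ ∈ Irr G, ℓ χ s ^ deg χ) c <
      meromorphicOrderAt (fun s => ∏ᶠ χ ∈ Irr G, ℓ χ s ^ m₁ χ) c + p)
    (hold : ∀ (W : Type) [AddCommGroup W] [Module ℚ W] [FiniteDimensional ℚ W]
      (σ : Representation ℚ G W), (∀ k ∈ N, ∀ w, σ k w = w) →
      Deligne (fun _ => ℓ) P c (fun g => algebraMap ℚ E (σ.character g)))
    {V : Type} [AddCommGroup V] [Module ℚ V] [FiniteDimensional ℚ V] (ρ : Representation ℚ G V)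
    {m : (G → ℂ) → ℕ} (hm : IsDecomp (fun g => ((ρ.character g : ℚ) : ℂ)) m)
    {Ω : ℂ} {u : E} (hΩ : ∀ τ : E →+* ℂ, ∏ᶠ χ ∈ Irr G, P τ χ ^ m χ = τ u * Ω) :
    ∃ q : ℚ, Tendsto (fun s => ∏ᶠ χ ∈ Irr G, ℓ χ s ^ m χ) (𝓝[≠] c) (𝓝 (q * Ω)) :=
  main_ratgrow' hζ hL hP hmon hdeg N hN hm₁ hz hold ρ hm hΩ

end Pool.Agent.Results.MP_b696eb_nt.SmallGrowthRational
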