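import Pool.Agent.R409.RD.Lim
import Pool.Agent.R409.RD.Wt

/-!
# The value `L(M, 0)` from finite sums of traces of Frobenius, for all motives of all weights

Let `M` be a pure motive over `ℚ` with rational coefficients, of weight `w`. Deligne's conjecture
compares `L(M, 0)` with a rational multiple of `c⁺(M)`. If `w ≥ -2`, the point `0` is not in the region
of absolute convergence of `L(M, s)`; for the central value (`w = -1`) a functional equation does not
help either. We prove that for every `M` the value is nevertheless an explicit limit of finite sums of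
traces of Frobenius, without a functional equation and without any hypothesis on the zeros: assume only
that `L(M, s)` has a continuation which is meromorphic on the real segment `[0, w/2 + 1]`. For all
`γ > π/2`, `θ > w/2 + 1`, `θ > 0` put `κ_γ(u) = e^{iγu} / Γ(1 + u)` and

`V(T) = ∑ κ_γ(k log p / T) Tr(Frob_p^k | M) / k`, the sum over `p^k ≤ exp (exp (θ T))`.

Then `V(T) = log |l| - π i n - r (log T - Λ_γ) + O(1/T)`, where `r` and `l` are the order and the leading
coefficient at `0` and `n` is the number of real zeros minus real poles in `(0, ∞)`. In particular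
`L(M, 0) = lim exp V(T)`, and `L(M, 0) ∈ ℚ c` if and only if `exp V(T)` converges to an element of `ℚ c`.
-/

set_option autoImplicit false

namespace Pool.Agent.Results.MP_b696eb_nt.ValuesFromTraces

open Filter Topology

section defs

/-- `α_{p,1}, …, α_{p,N}` are the parameters of the Euler factors of a motive of rank `N` and weight `w`
over `ℚ` with rational coefficients: the eigenvalues of the geometric Frobenius on `M_ℓ^{I_p}`,
completed by zeros. They have absolute value at most `p^{w/2}` and are the zeros of a polynomial with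
rational coefficients. -/
def IsParameter (w : ℤ) {N : ℕ} (α : Nat.Primes → Fin N → ℂ) : Prop :=
  (∀ p j, ‖α p j‖ ≤ ((p : ℕ) : ℝ) ^ ((w : ℝ) / 2)) ∧
    ∀ p, ∃ P : Polynomial ℚ,
      P.map (algebraMap ℚ ℂ) = ∏ j, (Polynomial.X - Polynomial.C (α p j))

/-- The L-function `L(M, s) = ∏_p ∏_j (1 - α_{p,j} p^{-s})⁻¹`. -/
noncomputable def LFun {N : ℕ} (α : Nat.Primes → Fin N → ℂ) (s : ℂ) : ℂ :=
  ∏' p : Nat.Primes, ∏ j, (1 - α p j * ((p : ℕ) : ℂ) ^ (-s))⁻¹

/-- `F` is meromorphic at the points of the real segment `[0, w/2 + 1]`, and it is the L-function for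
`Re s > w/2 + 1`. -/
def IsContinuation (w : ℤ) {N : ℕ} (α : Nat.Primes → Fin N → ℂ) (F : ℂ → ℂ) : Prop :=
  (∀ σ : ℝ, 0 ≤ σ → σ ≤ (w : ℝ) / 2 + 1 → MeromorphicAt F (σ : ℂ)) ∧
    ∀ s : ℂ, (w : ℝ) / 2 + 1 < s.re → F s = LFun α s

/-- The weight `κ_γ(u) = e^{iγu} / Γ(1 + u)`. -/
noncomputable def weight (γ u : ℝ) : ℂ :=
  Complex.exp (Complex.I * (γ * u)) / Complex.Gamma (1 + u)

/-- `V(T) = ∑ κ_γ(k log p / T) Tr(Frob_p^k | M) / k`, the sum over the prime powers
`p^k ≤ exp (exp (θ T))`, `k ≥ 1`. -/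
noncomputable def traceSum {N : ℕ} (α : Nat.Primes → Fin N → ℂ) (γ θ T : ℝ) : ℂ :=
  ∑ᶠ x ∈ {x : Nat.Primes × ℕ | 1 ≤ x.2 ∧ ((x.1 : ℕ) : ℝ) ^ x.2 ≤ Real.exp (Real.exp (θ * T))},
    weight γ (x.2 * Real.log (x.1 : ℕ) / T) * (∑ j, α x.1 j ^ x.2) / x.2

/-- `Λ_γ = ∫_0^∞ (e^{-t} - e^{iγt} / Γ(1 + t)) dt / t`. -/
noncomputable def lam (γ : ℝ) : ℂ :=
  ∫ t in Set.Ioi (0 : ℝ), (Real.exp (-t) - weight γ t) / t

/-- The number of the real zeros minus the number of the real poles of `F` in `(0, ∞)`, with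
multiplicities. -/
noncomputable def excess (F : ℂ → ℂ) : ℤ :=
  ∑ᶠ σ ∈ Set.Ioi (0 : ℝ), (meromorphicOrderAt F (σ : ℂ)).untop₀

end defs

section bridge

open Pool.Agent.R409.RC Pool.Agent.R409.RD

variable {N : ℕ} {w : ℤ} {α : Nat.Primes → Fin N → ℂ} {F : ℂ → ℂ}

theorem weight_eq {γ u : ℝ} : weight γ u = Pool.Agent.W187.S2.kk γ u := by
  unfold weight Pool.Agent.W187.S2.kk Pool.Agent.W189.ML.om
  have h1 : Complex.Gamma (1 + u) = ((Real.Gamma (1 + u) : ℝ) : ℂ) := by
    rw [← Complex.Gamma_ofReal]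
    push_cast
    rfl
  rw [h1, div_eq_mul_inv]
  push_cast
  congr 2
  ring

theorem lam_eq (γ : ℝ) : lam γ = Pool.Agent.W187.UR.Lam γ := by
  unfold lam Pool.Agent.W187.UR.Lam
  refine MeasureTheory.integral_congr_ae (Filter.Eventually.of_forall fun t => ?_)
  simp only
  rw [weight_eq]
  unfold Pool.Agent.W187.S2.kk Pool.Agent.W189.ML.om
  push_cast
  rfl

/-- the norms -/
noncomputable def qp (p : Nat.Primes) : ℝ := ((p : ℕ) : ℝ)

theorem wd (h : IsParameter w α) : WD (w : ℝ) qp α where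
  two_le := fun p => by
    unfold qp
    exact_mod_cast p.2.two_le
  sum := fun σ hσ => Nat.Primes.summable_rpow.2 (by linarith)
  norm_le := h.1
  real := fun p => by
    obtain ⟨P, hP⟩ := h.2 p
    refine RealPoly.ci ⟨P.map (algebraMap ℚ ℝ), ?_⟩
    rw [← hP, Polynomial.map_map]
    congr 1

theorem gd (h : IsParameter w α) (hF : IsContinuation w α F) :
    GD ((w : ℝ) / 2 + 1) (Pool.Agent.W189.LC.fr qp) (cR α) F :=
  (wd h).gd hF.1 fun s hs => by
    rw [hF.2 s hs]
    rfl

theorem traceSum_eq (h : IsParameter w α) (γ θ T : ℝ) :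
    traceSum α γ θ T = gsum (Pool.Agent.W189.LC.fr qp) (cR α) θ γ T := by
  rw [(wd h).gsum_eq]
  unfold traceSum
  refine finsum_mem_congr rfl fun x _ => ?_
  unfold pterm
  rw [weight_eq]
  unfold Pool.Agent.W187.S2.kk qp
  push_cast
  ring

end bridge

/-- **The order, the leading coefficient and the value at `0` from finite sums of traces of Frobenius.**
Let `α` be the parameters of the Euler factors of a motive of weight `w` over `ℚ` with rational
coefficients, and let `F` be a continuation of its L-function which is meromorphic on the real segment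
`[0, w/2 + 1]`. Then `F` has a finite order `r` and a real leading coefficient `l ≠ 0` at `0`, and for
all `γ > π/2`, `θ > w/2 + 1`, `θ > 0`:

* `V(T) = log |l| - π i n - r (log T - Λ_γ) + O(1/T)`;
* `ord_{s=0} F = ρ` if and only if `Re V(T_k) / log T_k → - ρ` for one sequence `T_k → ∞`;
* `F` has the order `ρ` and the leading coefficient `B ≠ 0` at `0` if and only if
  `T ^ ρ exp V(T) → B exp(ρ Λ_γ)`;
* `F(s) → b` for `s → 0` if and only if `exp V(T) → b` for `T → ∞`;
* the value of `F` at `0` is in `ℚ c` if and only if `exp V(T)` converges to an element of `ℚ c`. -/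
theorem result (w : ℤ) (N : ℕ) (α : Nat.Primes → Fin N → ℂ) (_ : IsParameter w α) (F : ℂ → ℂ)
    (_ : IsContinuation w α F) :
    ∃ (r : ℤ) (l : ℝ), l ≠ 0 ∧ meromorphicOrderAt F 0 = r ∧ meromorphicTrailingCoeffAt F 0 = l ∧
      ∀ γ θ : ℝ, Real.pi / 2 < γ → (w : ℝ) / 2 + 1 < θ → 0 < θ →
        (∃ C T₀ : ℝ, ∀ T : ℝ, T₀ ≤ T →
          ‖traceSum α γ θ T -
            (Real.log |l| - Real.pi * Complex.I * excess F - r * (Real.log T - lam γ))‖ ≤
              C / T) ∧
        (∀ ρ : ℤ, meromorphicOrderAt F 0 = ρ ↔ ∃ T : ℕ → ℝ, Tendsto T atTop atTop ∧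
          Tendsto (fun k => (traceSum α γ θ (T k)).re / Real.log (T k)) atTop (𝓝 (-ρ))) ∧
        (∀ (ρ : ℤ) (B : ℝ), B ≠ 0 →
          ((meromorphicOrderAt F 0 = ρ ∧ meromorphicTrailingCoeffAt F 0 = B) ↔
            Tendsto (fun T : ℝ => (T : ℂ) ^ ρ * Complex.exp (traceSum α γ θ T)) atTop
              (𝓝 (B * Complex.exp (ρ * lam γ))))) ∧
        (∀ b : ℂ, Tendsto F (𝓝[≠] 0) (𝓝 b) ↔
          Tendsto (fun T : ℝ => Complex.exp (traceSum α γ θ T)) atTop (𝓝 b)) ∧
        ∀ c : ℂ, (∃ b : ℚ, Tendsto F (𝓝[≠] 0) (𝓝 (b * c))) ↔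
          ∃ b : ℚ, Tendsto (fun T : ℝ => Complex.exp (traceSum α γ θ T)) atTop (𝓝 (b * c)) := by
  rename_i hα hF
  have D := gd hα hF
  obtain ⟨m, l, hl, hm, hlc, hexp, hlaw⟩ := D.law
  have hexc : Pool.Agent.R409.RD.gexc F = excess F := rfl
  have hmer0 : MeromorphicAt F 0 := by
    have := D.mer (x := 0) le_rfl
    simpa using this
  refine ⟨m, l, hl, hm, hlc, fun γ θ hγ hθ hθ0 => ?_⟩
  have hL := hlaw γ θ hγ hθ hθ0
  have hval : ∀ b : ℂ, Tendsto F (𝓝[≠] 0) (𝓝 b) ↔
      Tendsto (fun T : ℝ => Complex.exp (traceSum α γ θ T)) atTop (𝓝 b) := by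
    intro b
    simp only [traceSum_eq hα]
    exact Pool.Agent.R409.RD.value_iff hL hmer0 hm (by rw [hexp, hlc]) b
  refine ⟨?_, fun ρ => ?_, fun ρ B hB => ?_, hval, fun c => ?_⟩
  · obtain ⟨C, T₀, hC, hT₀, hT⟩ := hL
    refine ⟨C, T₀, fun T h => ?_⟩
    rw [traceSum_eq hα, lam_eq, ← hexc]
    refine le_trans (le_of_eq ?_) (hT T h)
    congr 1
    ring
  · rw [hm]
    simp only [traceSum_eq hα]
    have h1 := hL.iff_seq (ρ : ℝ)
    constructor
    · intro h2
      exact h1.1 (by exact_mod_cast h2)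
    · intro h2
      have h3 := h1.2 h2
      have h4 : m = ρ := by exact_mod_cast h3
      rw [h4]
  · rw [hm, hlc]
    simp only [traceSum_eq hα, lam_eq]
    have hBc : (B : ℂ) ≠ 0 := by exact_mod_cast hB
    have h1 := hL.iff_exp ρ hBc
    rw [hexp] at h1
    constructor
    · rintro ⟨h2, h3⟩
      refine (h1.1 ⟨by exact_mod_cast h2, h3⟩).congr fun T => ?_
      rw [mul_comm]
    · intro h2
      obtain ⟨h3, h4⟩ := h1.2 (h2.congr fun T => by rw [mul_comm])
      exact ⟨by rw [h3], h4⟩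
  · exact ⟨fun ⟨b, hb⟩ => ⟨b, (hval _).1 hb⟩, fun ⟨b, hb⟩ => ⟨b, (hval _).2 hb⟩⟩

end Pool.Agent.Results.MP_b696eb_nt.ValuesFromTraces
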